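import Pool.Agent.W523.BN.Final

/-!
# Containments of Brill-Noether loci outside the secant range: the answer to Q1 is negative

For all integers `s ≥ 2`, `r ≥ max (s + 1) (2s - 1)`, `d ≥ 2r` and `g > (d-1)^2`, every curve of genus `g`
with a `g^r_d` has a `g^s_e` for `e = d - 2r + 2s`, the locus `M^r_{g,d}` is not empty, and
`e < d - 2r + 2 + s + ⌊(r-1)/2⌋`. So the non-containment asked for fails for every genus `g ≥ 26`.

Idea: a curve `C` whose function field is generated over `ℂ(x)` by `y`, with `x` and `y` of degrees at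
most `d`, has genus at most `(d-1)^2`. So for `g > (d-1)^2` the map given by a `g^r_d` is not birational
onto its image: it factors through a covering of degree `k ≥ 2`. A section vanishing at a point vanishes on
its whole fibre, so imposing `r-s` general points lowers the dimension by at most `r-s` and the degree by
`k (r-s) ≥ 2 (r-s)`.
-/

set_option autoImplicit false

open Pool.Agent.W523.BN

namespace Pool.Agent.Results.MP_eed2ef_ag.Disproof

/-- For all integers `g, r, s, d` with `2 ≤ s`, `r ≥ s + 1`, `r ≥ 2s - 1`, `d ≥ 2r` and `g > (d-1)^2`, the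
number `e = d - 2r + 2s` satisfies all the conditions of the question, both `M^r_{g,d}` and `M^s_{g,e}` are
nonempty, and `M^r_{g,d}` is contained in `M^s_{g,e}`. Hence there is no `g₀` as in the question. -/
theorem result :
    (∀ g r s d : ℤ, 2 ≤ s → s + 1 ≤ r → 2 * s - 1 ≤ r → 2 * r ≤ d → (d - 1) ^ 2 < g →
      (d ≤ g - 1 ∧ d - 2 * r + 2 * s ≤ g - 1 ∧ rho g r d < 0 ∧ rho g s (d - 2 * r + 2 * s) < 0 ∧
        d - 2 * r + 2 * s < d - 2 * r + 2 + s + (r - 1) / 2) ∧
      (locus g r d).Nonempty ∧ (locus g s (d - 2 * r + 2 * s)).Nonempty ∧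
      locus g r d ⊆ locus g s (d - 2 * r + 2 * s)) ∧
    ¬ ∃ g₀ : ℤ, ∀ g : ℤ, g₀ ≤ g → ∀ r s d e : ℤ, d ≤ g - 1 → e ≤ g - 1 → s + 1 ≤ r → 3 ≤ s + 1 →
      rho g r d < 0 → (locus g r d).Nonempty → rho g s e < 0 → (locus g s e).Nonempty →
      e < d - 2 * r + 2 + s + (r - 1) / 2 →
      ¬ locus g r d ⊆ locus g s e := by
  have key : ∀ g r s d : ℤ, 2 ≤ s → s + 1 ≤ r → 2 * s - 1 ≤ r → 2 * r ≤ d → (d - 1) ^ 2 < g →
      (d ≤ g - 1 ∧ d - 2 * r + 2 * s ≤ g - 1 ∧ rho g r d < 0 ∧ rho g s (d - 2 * r + 2 * s) < 0 ∧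
        d - 2 * r + 2 * s < d - 2 * r + 2 + s + (r - 1) / 2) ∧
      (locus g r d).Nonempty ∧ (locus g s (d - 2 * r + 2 * s)).Nonempty ∧
      locus g r d ⊆ locus g s (d - 2 * r + 2 * s) := by
    intro g r s d hs hsr hr hd hg
    have hd6 : 6 ≤ d := by omega
    have h1 : d + 1 ≤ g := by nlinarith
    have hsub : locus g r d ⊆ locus g s (d - 2 * r + 2 * s) := by
      have h2 := locus_subset (g := g) (r := r) (s := s) (d := d) (by omega) (by omega) hg
      have h3 : d - 2 * (r - s) = d - 2 * r + 2 * s := by ring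
      rwa [h3] at h2
    have hne : (locus g r d).Nonempty := locus_nonempty (by omega) (by omega) hd
    have hrho : ∀ a b : ℤ, 2 ≤ a → 2 * a ≤ b → b ≤ d → rho g a b < 0 := by
      intro a b ha hab hb
      unfold rho
      have h2 : (a + 1) * (b - a) < a * g := by
        have h3 : (a + 1) * (b - a) ≤ a * (b - 1) ^ 2 := by nlinarith
        have h4 : (b - 1) ^ 2 ≤ (d - 1) ^ 2 := by nlinarith
        have h5 : a * (b - 1) ^ 2 < a * g := by nlinarith
        linarith
      nlinarith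
    exact ⟨⟨by omega, by omega, hrho _ _ (by omega) hd le_rfl, hrho _ _ hs (by omega) (by omega),
      by omega⟩, hne, hne.mono hsub, hsub⟩
  refine ⟨key, ?_⟩
  rintro ⟨g₀, h⟩
  obtain ⟨⟨h1, h2, h3, h4, h5⟩, h6, h7, h8⟩ := key (max g₀ 26) 3 2 6 (by norm_num) (by norm_num)
    (by norm_num) (by norm_num) (by norm_num)
  exact h (max g₀ 26) (le_max_left _ _) 3 2 6 _ h1 h2 (by norm_num) (by norm_num) h3 h6 h4 h7 h5 h8

end Pool.Agent.Results.MP_eed2ef_ag.Disproof
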